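import Pool.Agent.Run7.h240.HP.Fin

/-!
# The probability that a planar self-avoiding walk stays in a half-plane, or has a cut time
-/

set_option autoImplicit false

namespace Pool.Agent.Results.MP_df1d0b_pr.HalfPlaneAndCutTimes

open scoped Classical

/-- the `n`-step self-avoiding walks from the origin on `ℤ²` -/
def walks (n : ℕ) : Set (Fin (n + 1) → ℤ × ℤ) :=
  {γ | γ 0 = 0 ∧ Function.Injective γ ∧
    ∀ i : Fin n, |(γ i.succ).1 - (γ i.castSucc).1| + |(γ i.succ).2 - (γ i.castSucc).2| = 1}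

/-- the height of a vertex in the direction `u` -/
def height (u : ℝ × ℝ) (p : ℤ × ℤ) : ℝ := u.1 * p.1 + u.2 * p.2

/-- `t` is a cut time of `γ` in the direction `u`: the line through `γ t` perpendicular to `u`
separates the past from the future -/
def CutTime (u : ℝ × ℝ) {n : ℕ} (t : Fin (n + 1)) (γ : Fin (n + 1) → ℤ × ℤ) : Prop :=
  (∀ i, i ≤ t → height u (γ i) ≤ height u (γ t)) ∧ ∀ i, t < i → height u (γ t) < height u (γ i)

/-! ### transfer -/

open Run7.h240.HP
open Pool.Agent.W840.CT hiding tail_all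
open Pool.Agent.TH546.SAW (W mem_W card_W)

theorem mem_walks {n : ℕ} {γ : Fin (n + 1) → ℤ × ℤ} : γ ∈ walks n ↔ SW n γ :=
  ⟨fun ⟨h0, hi, hs⟩ => ⟨h0, hs, hi⟩, fun ⟨h0, hs, hi⟩ => ⟨h0, hi, hs⟩⟩

theorem walks_card (n : ℕ) : ((walks n).ncard : ℝ) = cn n := by
  rw [← card_W, ← Set.ncard_coe_finset]
  congr 2
  ext γ
  rw [mem_walks, Finset.mem_coe, mem_W]

theorem half_card (u : ℝ × ℝ) (n : ℕ) :
    ({γ ∈ walks n | ∀ i, 0 ≤ height u (γ i)}.ncard : ℝ) = (HH u n).card := by
  rw [← Set.ncard_coe_finset]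
  congr 2
  ext γ
  simp only [Set.mem_ofPred_eq, Finset.mem_coe, mem_HH, mem_walks]
  rfl

theorem cut_card (u : ℝ × ℝ) (n : ℕ) (t : Fin (n + 1)) :
    ({γ ∈ walks n | CutTime u t γ}.ncard : ℝ) ≤
      (((W n).filter (fun ω => (∀ i ≤ t.1, ht u (ex ω i) ≤ ht u (ex ω t.1)) ∧
      ∀ i, t.1 < i → i ≤ n → ht u (ex ω t.1) ≤ ht u (ex ω i))).card : ℝ) := by
  rw [← Set.ncard_coe_finset]
  refine Nat.cast_le.2 (Set.ncard_le_ncard ?_ (Finset.finite_toSet _))
  rintro γ ⟨h1, h2, h3⟩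
  simp only [Finset.coe_filter, Set.mem_ofPred_eq, mem_W]
  have ht' : ex γ t.1 = γ t := ex_val γ t
  refine ⟨mem_walks.1 h1, fun i hi => ?_, fun i hi hin => ?_⟩
  · have h4 := h2 ⟨i, by have := t.2; omega⟩ hi
    rw [ht']
    have h5 := ex_val γ ⟨i, by have := t.2; omega⟩
    simp only at h5
    rw [h5]
    exact h4
  · have h4 := h3 ⟨i, by omega⟩ hi
    rw [ht']
    have h5 := ex_val γ ⟨i, by omega⟩
    simp only at h5
    rw [h5]
    exact h4.le

theorem rp_mono {c c' : ℝ} (h : c ≤ c') {m : ℕ} (hm : 16 ≤ m) :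
    (m : ℝ) ^ (-(c' / Real.log (Real.log m))) ≤ (m : ℝ) ^ (-(c / Real.log (Real.log m))) := by
  have h1 := Pool.Agent.H924P.G.one_le_loglog hm
  refine Real.rpow_le_rpow_of_exponent_le (by exact_mod_cast (show 1 ≤ m by omega)) ?_
  have := div_le_div_of_nonneg_right h (show 0 ≤ Real.log (Real.log (m : ℝ)) by linarith)
  linarith

/-- There is a constant `c > 0` such that for every direction `u ≠ 0` there is a constant `C` with
(1) for all `n ≥ 16`, the uniform `n`-step self-avoiding walk on `ℤ²` from the origin stays in the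
closed half-plane `{x : u · x ≥ 0}` with probability at most `C n^(-c / log log n)`;
(2) for all `n` and all times `t` with `m = min (t, n - t) ≥ 16`, the probability that `t` is a cut
time of this walk in the direction `u` is at most `C m^(-c / log log m)`. -/
theorem result : ∃ c : ℝ, 0 < c ∧ ∀ u : ℝ × ℝ, u ≠ 0 → ∃ C : ℝ,
    (∀ n : ℕ, 16 ≤ n →
      ({γ ∈ walks n | ∀ i, 0 ≤ height u (γ i)}.ncard : ℝ) ≤
        C * (n : ℝ) ^ (-(c / Real.log (Real.log n))) * ((walks n).ncard : ℝ)) ∧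
    ∀ (n : ℕ) (t : Fin (n + 1)) (m : ℕ), m = min t.1 (n - t.1) → 16 ≤ m →
      ({γ ∈ walks n | CutTime u t γ}.ncard : ℝ) ≤
        C * (m : ℝ) ^ (-(c / Real.log (Real.log m))) * ((walks n).ncard : ℝ) := by
  obtain ⟨c1, hc1, h1⟩ := half_plane
  obtain ⟨c2, hc2, h2⟩ := cut_times
  refine ⟨min c1 c2, lt_min hc1 hc2, fun u hu => ?_⟩
  obtain ⟨K1, hK1, g1⟩ := h1 u hu
  obtain ⟨K2, hK2, g2⟩ := h2 u hu
  refine ⟨max K1 K2, fun n hn => ?_, fun n t m hm hm16 => ?_⟩
  · rw [half_card, walks_card]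
    refine (g1 n hn).trans ?_
    refine mul_le_mul_of_nonneg_right ?_ (Nat.cast_nonneg _)
    exact mul_le_mul (le_max_left _ _) (rp_mono (min_le_left _ _) hn) (by positivity)
      (le_trans hK1 (le_max_left _ _))
  · rw [walks_card]
    have h3 := g2 t.1 (n - t.1) n (by have := t.2; omega) (by omega)
    rw [← hm] at h3
    refine (cut_card u n t).trans (h3.trans ?_)
    refine mul_le_mul_of_nonneg_right ?_ (Nat.cast_nonneg _)
    exact mul_le_mul (le_max_right _ _) (rp_mono (min_le_right _ _) hm16) (by positivity)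
      (le_trans hK2 (le_max_right _ _))

end Pool.Agent.Results.MP_df1d0b_pr.HalfPlaneAndCutTimes
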