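import Pool.Agent.Run7.h618.BR.SqE
import Pool.Agent.Run7.h618.BR.SqS

set_option autoImplicit false

/-!
# The cut times of the infinite half-plane self-avoiding walk on `ℤ²` are sparse
-/

namespace Pool.Agent.Results.MP_df1d0b_pr.InfiniteCutTimes

open Filter Topology MeasureTheory

/-- the square grid in the complex plane -/
def Z2 : Set ℂ := {z | ∃ x y : ℤ, z = ⟨(x : ℝ), (y : ℝ)⟩}

/-- self-avoiding walks with `n` steps on the square grid in the closed upper half-plane, starting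
at `0`; a walk is continued by its last point -/
def PW (n : ℕ) : Set (ℕ → ℂ) :=
  {γ | γ 0 = 0 ∧ (∀ i, γ i ∈ Z2 ∧ 0 ≤ (γ i).im) ∧ (∀ i < n, ‖γ (i + 1) - γ i‖ = 1) ∧
    (∀ i ≤ n, ∀ j ≤ n, γ i = γ j → i = j) ∧ ∀ i, n ≤ i → γ i = γ n}

/-- `k` is a cut time of `γ`: there is a horizontal line such that `γ` is below or on the line up to
the time `k`, and strictly above the line afterwards -/
def CutTime (k : ℕ) (γ : ℕ → ℂ) : Prop :=
  ∃ y : ℝ, (∀ i ≤ k, (γ i).im ≤ y) ∧ ∀ i, k < i → y < (γ i).im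

/-- the self-avoiding walks with `n` steps on `ℤ²` from the origin -/
def walks (n : ℕ) : Set (Fin (n + 1) → ℤ × ℤ) :=
  {γ | γ 0 = 0 ∧ (∀ i : Fin n, |(γ i.succ).1 - (γ i.castSucc).1| +
    |(γ i.succ).2 - (γ i.castSucc).2| = 1) ∧ Function.Injective γ}

/-- the bridges with `n` steps: all later vertices are strictly to the right of the origin, and no
vertex is to the right of the last one -/
def bridges (n : ℕ) : Set (Fin (n + 1) → ℤ × ℤ) :=
  {γ ∈ walks n | (∀ i, i ≠ 0 → 0 < (γ i).1) ∧ ∀ i, (γ i).1 ≤ (γ (Fin.last n)).1}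

open Run7.h618.BR.SQ in
/-- Let `μ` be the law of the infinite half-plane self-avoiding walk on `ℤ²` (the weak limit of the
uniform measures on `n`-step half-plane walks), let `mu` be the connective constant and `b n` the
number of the bridges with `n` steps. There are constants `c > 0` and `C` such that
(1) the probability that `k` is a cut time of the infinite half-plane walk, which is equal to
`b (k + 1) / mu^(k + 1)`, is at most `C k^(-c / log log k)`, for all `k ≥ 16`;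
(2) almost surely, for all large `n`, at most `n^(1 - c / log log n)` of the times `0, ..., n - 1`
are cut times. -/
theorem result : ∃ c C mu : ℝ, 0 < c ∧
    Tendsto (fun n : ℕ => ((walks n).ncard : ℝ) ^ (1 / (n : ℝ))) atTop (𝓝 mu) ∧
    ∃ μ : Measure (ℕ → ℂ), IsProbabilityMeasure μ ∧
      (∀ᵐ γ ∂μ, γ 0 = 0 ∧ (∀ i, γ i ∈ Z2 ∧ 0 ≤ (γ i).im) ∧
        (∀ i, ‖γ (i + 1) - γ i‖ = 1) ∧ Function.Injective γ) ∧
      (∀ F : BoundedContinuousFunction (ℕ → ℂ) ℝ,
        Tendsto (fun n => (∑ᶠ γ ∈ PW n, F γ) / ((PW n).ncard : ℝ)) atTop (𝓝 (∫ γ, F γ ∂μ))) ∧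
      (∀ k : ℕ, μ {γ | CutTime k γ} =
        ENNReal.ofReal (((bridges (k + 1)).ncard : ℝ) / mu ^ (k + 1))) ∧
      (∀ k : ℕ, 16 ≤ k → μ {γ | CutTime k γ} ≤
        ENNReal.ofReal (C * (k : ℝ) ^ (-(c / Real.log (Real.log k))))) ∧
      ∀ᵐ γ ∂μ, ∀ᶠ n : ℕ in atTop, (Set.ncard {k : ℕ | k < n ∧ CutTime k γ} : ℝ) ≤
        (n : ℝ) ^ (1 - c / Real.log (Real.log n)) := by
  obtain ⟨c, C, hc, hc1, hC, hb⟩ := b_decay
  obtain ⟨μ, h1, h2, h3, h4⟩ := Pool.Agent.H976R3.HPL.concl_of_emb EE facts_sq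
  have := h1
  have hm := H981.mu_pos
  have hrate : ∀ n : ℕ, 16 ≤ n → (n : ℝ) ^ (-(c / Real.log (Real.log n))) ≤
      (n : ℝ) ^ (-(c / 32 / Real.log (Real.log n))) := by
    intro n hn
    refine Real.rpow_le_rpow_of_exponent_le (by exact_mod_cast (show 1 ≤ n by omega)) ?_
    have h5 := ll_ge hn
    have h6 : c / 32 / Real.log (Real.log n) ≤ c / Real.log (Real.log n) :=
      div_le_div_of_nonneg_right (by linarith) (by linarith)
    linarith
  have hcut : ∀ k : ℕ, 16 ≤ k → μ {γ | CutTime k γ} ≤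
      ENNReal.ofReal (C * (k : ℝ) ^ (-(c / Real.log (Real.log k)))) := by
    intro k hk
    refine (cut_prob μ h3 h2 k).trans (ENNReal.ofReal_le_ofReal ?_)
    rw [div_le_iff₀ (pow_pos hm _)]
    have h5 := hb (k + 1) (by omega)
    have h6 := rate_anti hc.le hk (show k ≤ k + 1 by omega)
    have h7 : 0 ≤ C * H981.mu ^ (k + 1) := by positivity
    calc ((Pool.Agent.H976R3.HPL.b sq 0 (k + 1) : ℕ) : ℝ)
        ≤ C * H981.mu ^ (k + 1) * ((k + 1 : ℕ) : ℝ) ^
          (-(c / Real.log (Real.log ((k + 1 : ℕ) : ℝ)))) := h5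
      _ ≤ C * H981.mu ^ (k + 1) * (k : ℝ) ^ (-(c / Real.log (Real.log k))) :=
          mul_le_mul_of_nonneg_left h6 h7
      _ = _ := by ring
  refine ⟨c / 32, C, H981.mu, by positivity, ?_, μ, h1, h2, h4, fun k => ?_, ?_, ?_⟩
  · have h5 := H981.tendsto_root
    refine h5.congr fun n => ?_
    have e : H981.cr' n = ((walks n).ncard : ℝ) := by
      rw [← Pool.Agent.W840.CT.cn_eq]
      unfold Pool.Agent.W840.CT.cn
      rw [← Nat.card_coe_set_eq]
      rfl
    rw [e]
  · have h5 : (bridges (k + 1)).ncard = Pool.Agent.H976R3.HPL.b sq 0 (k + 1) := by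
      rw [← card_BW, ← Set.ncard_coe_finset]
      congr 1
      ext f
      rw [Finset.mem_coe]
      unfold BW bridges
      rw [Finset.mem_filter, Pool.Agent.TH546.SAW.mem_W]
      rfl
    rw [h5]
    exact cut_eq μ h3 h2 k
  · intro k hk
    refine (hcut k hk).trans (ENNReal.ofReal_le_ofReal ?_)
    exact mul_le_mul_of_nonneg_left (hrate k hk) hC.le
  · have h5 := as_count μ (fun k => {γ | CutTime k γ}) hc hc1 hC hcut
    filter_upwards [h5] with γ hγ
    filter_upwards [hγ, eventually_ge_atTop 1] with n hn hn1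
    have hn0 : (0 : ℝ) < n := by exact_mod_cast hn1
    rw [sub_eq_add_neg, Real.rpow_add hn0, Real.rpow_one]
    exact hn

end Pool.Agent.Results.MP_df1d0b_pr.InfiniteCutTimes
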