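import Pool.Agent.Run7.h206.SV.Inf

/-!
# The time which the half-plane self-avoiding walk on `ℤ²` spends near the boundary
-/

set_option autoImplicit false

namespace Pool.Agent.Results.MP_df1d0b_pr.StripVisits

open Filter Topology MeasureTheory

/-- The two sites are neighbours on the square grid `ℤ²`. -/
def Adj (p q : ℤ × ℤ) : Prop := |p.1 - q.1| + |p.2 - q.2| = 1

/-- The self-avoiding walks with `n` steps which start at `0` and stay in the closed upper
half-plane, as lists of their `n + 1` sites. -/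
def walks (n : ℕ) : Set (List (ℤ × ℤ)) :=
  {l | l.length = n + 1 ∧ l.head? = some (0, 0) ∧ l.IsChain Adj ∧ l.Nodup ∧ ∀ p ∈ l, 0 ≤ p.2}

/-- The mean under the uniform probability measure on the half-plane walks with `n` steps. -/
noncomputable def mean (n : ℕ) (f : List (ℤ × ℤ) → ℝ) : ℝ :=
  (∑ᶠ l ∈ walks n, f l) / (walks n).ncard

/-- The probability under the uniform measure on the half-plane walks with `n` steps. -/
noncomputable def prob (n : ℕ) (A : Set (List (ℤ × ℤ))) : ℝ :=
  ((walks n ∩ A).ncard : ℝ) / (walks n).ncard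

/-- The number of the sites of the walk in the strip `0 ≤ y ≤ h`. -/
def visits (h : ℕ) (l : List (ℤ × ℤ)) : ℕ := l.countP (fun p => decide (p.2 ≤ (h : ℤ)))

/-- `μ` is the weak limit of the uniform measures on the half-plane walks with `n` steps: for all
`m` and `w` the probability that the first `m + 1` sites are `w` converges to the `μ`-measure of
the infinite paths with this property. -/
def IsLimit (μ : Measure (ℕ → ℤ × ℤ)) : Prop :=
  ∀ (m : ℕ) (w : List (ℤ × ℤ)), w.length = m + 1 →
    Tendsto (fun n => prob n {l | l.take (m + 1) = w}) atTop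
      (𝓝 (μ {γ | (List.range (m + 1)).map γ = w}).toReal)

open Run7.h206.SV in
theorem walks_eq (n : ℕ) : walks n = Wk Up n (0, 0) := rfl

open Run7.h206.SV in
theorem coe_HF (n : ℕ) : (HF n : Set (List P)) = walks n := by
  unfold HF
  rw [Set.Finite.coe_toFinset]
  rfl

open Run7.h206.SV in
theorem mean_eq (n : ℕ) (f : List (ℤ × ℤ) → ℝ) :
    mean n f = (∑ l ∈ HF n, f l) / (HF n).card := by
  unfold mean
  rw [← coe_HF, Set.ncard_coe_finset, finsum_mem_coe_finset]

open Run7.h206.SV in
theorem prob_eq (n : ℕ) (A : Set (List (ℤ × ℤ))) (p : List (ℤ × ℤ) → Prop) [DecidablePred p]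
    (h : ∀ l, l ∈ A ↔ p l) :
    prob n A = (((HF n).filter p).card : ℝ) / (HF n).card := by
  unfold prob
  rw [← coe_HF, Set.ncard_coe_finset]
  congr 2
  rw [← Set.ncard_coe_finset]
  congr 1
  ext l
  simp [h]

open scoped Classical in
open Run7.h206.SV in
theorem limit_pr (μ : Measure (ℕ → ℤ × ℤ)) (hμ : IsLimit μ) (m : ℕ) (w : List P)
    (hw : w.length = m + 1) : Tendsto (fun n => pr n m w) atTop (𝓝 (μ (cyl m w)).toReal) := by
  have h := hμ m w hw
  refine h.congr (fun n => ?_)
  unfold pr
  exact prob_eq n _ _ (fun l => Iff.rfl)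

/-- **Theorem.** Uniform half-plane self-avoiding walks on `ℤ²` with `n` steps. For every `h` there
are `α > 0` and `C` such that, for all `n` and `v`:
(1) the number `N` of the sites of the walk in the strip `0 ≤ y ≤ h` satisfies
`E exp(α N) ≤ C` and `P(N ≥ v) ≤ C exp(-α v)`, uniformly in the length `n`;
(2) the infinite half-plane self-avoiding walk (the weak limit `μ` of the uniform measures)
satisfies `μ(N ≥ v) ≤ C exp(-α v)` as well.
(3) In particular, the height of the infinite half-plane walk tends to infinity almost surely. -/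
theorem result :
    (∀ h : ℕ, ∃ α C : ℝ, 0 < α ∧
      (∀ n : ℕ, mean n (fun l => Real.exp (α * visits h l)) ≤ C) ∧
      (∀ n v : ℕ, prob n {l | v ≤ visits h l} ≤ C * Real.exp (-(α * v))) ∧
      ∀ μ : Measure (ℕ → ℤ × ℤ), IsProbabilityMeasure μ → IsLimit μ → ∀ v : ℕ,
        μ {γ | (v : ℕ∞) ≤ Set.encard {i | (γ i).2 ≤ (h : ℤ)}} ≤
          ENNReal.ofReal (C * Real.exp (-(α * v)))) ∧
    ∀ μ : Measure (ℕ → ℤ × ℤ), IsProbabilityMeasure μ → IsLimit μ →
      ∀ᵐ γ ∂μ, Tendsto (fun i => (γ i).2) atTop atTop := by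
  refine ⟨fun h => ?_, fun μ hμ hl => Run7.h206.SV.to_infinity μ (limit_pr μ hl)⟩
  obtain ⟨α, C, hα, -, H⟩ := Run7.h206.SV.visits_exp h
  refine ⟨α, C, hα, fun n => ?_, fun n v => ?_, fun μ hμ hl v =>
    Run7.h206.SV.inf_bound h hα H μ (limit_pr μ hl) v⟩
  · rw [mean_eq, div_le_iff₀ (by exact_mod_cast Run7.h206.SV.HF_pos n)]
    exact H n
  · classical
    rw [prob_eq n _ _ (fun l => Iff.rfl),
      div_le_iff₀ (by exact_mod_cast Run7.h206.SV.HF_pos n)]
    exact Run7.h206.SV.tail h hα H n v

end Pool.Agent.Results.MP_df1d0b_pr.StripVisits
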